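import Pool.Agent.Helper64.BKA.Stmts

set_option autoImplicit false

open NumberField Polynomial
open scoped Classical

namespace BKA

namespace LOCaux

/-! ### automorphisms of algebraic extensions of `F_p` commute -/

theorem cast_of_pow {k : Type} [CommRing k] [IsDomain k] {p : ℕ} [Fact p.Prime] [CharP k p]
    {c : k} (hc : c ^ p = c) : ∃ z : ℕ, (z : k) = c := by
  have h1 : (X ^ p - X : (ZMod p)[X]) = ∏ a : ZMod p, (X - C a) := by
    have h2 := FiniteField.roots_X_pow_card_sub_X (ZMod p)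
    rw [ZMod.card] at h2
    have hmon : (X ^ p - X : (ZMod p)[X]).Monic :=
      monic_X_pow_sub (by rw [degree_X]; exact_mod_cast (Fact.out : p.Prime).one_lt)
    have h3 : (X ^ p - X : (ZMod p)[X]).Splits := by
      rw [splits_iff_card_roots, h2, ← Finset.card_def, Finset.card_univ, ZMod.card,
        FiniteField.X_pow_card_sub_X_natDegree_eq _ (Fact.out : p.Prime).one_lt]
    have h4 := h3.eq_prod_roots_of_monic hmon
    rw [h2] at h4
    rw [h4]
    rfl
  have h5 := congrArg (fun P => eval₂ (ZMod.castHom (dvd_refl p) k) c P) h1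
  simp only [eval₂_sub, eval₂_pow, eval₂_X, eval₂_finsetProd, eval₂_C] at h5
  rw [hc, sub_self] at h5
  obtain ⟨a, -, ha⟩ := Finset.prod_eq_zero_iff.1 h5.symm
  refine ⟨a.val, ?_⟩
  rw [sub_eq_zero] at ha
  rw [ha, ← map_natCast (ZMod.castHom (dvd_refl p) k), ZMod.natCast_zmod_val]

theorem pow_of_hom {k : Type} [CommRing k] [IsDomain k] {p : ℕ} [Fact p.Prime] [CharP k p]
    (φ : k →+* k) {y : k} {m : ℕ} (hy : y ^ p ^ m = y) (hm : 0 < m) :
    ∃ i : ℕ, φ y = y ^ p ^ i := by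
  set Q : k[X] := ∏ i ∈ Finset.range m, (X - C (y ^ p ^ i)) with hQ
  have h1 : Q.map (frobenius k p) = Q := by
    have h2 : Q.map (frobenius k p) = ∏ i ∈ Finset.range m, (X - C (y ^ p ^ (i + 1))) := by
      rw [hQ, Polynomial.map_prod]
      refine Finset.prod_congr rfl fun i _ => ?_
      rw [Polynomial.map_sub, map_X, map_C, frobenius_def, ← pow_mul, pow_succ]
    have h3 := Finset.prod_range_succ (fun i => X - C (y ^ p ^ i)) m
    have h4 := Finset.prod_range_succ' (fun i => X - C (y ^ p ^ i)) m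
    rw [h4] at h3
    simp only [pow_zero, pow_one, hy] at h3
    rw [h2]
    exact mul_right_cancel₀ (X_sub_C_ne_zero y) h3
  have h5 : Q.map φ = Q := by
    ext n
    rw [coeff_map]
    have h6 : (Q.coeff n) ^ p = Q.coeff n := by
      have := congrArg (fun P => coeff P n) h1
      simpa only [coeff_map, frobenius_def] using this
    obtain ⟨z, hz⟩ := cast_of_pow h6
    rw [← hz, map_natCast]
  have h7 : Q.eval (φ y) = 0 := by
    rw [← h5, eval_map, eval₂_hom]
    have : Q.eval y = 0 := by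
      rw [hQ, eval_prod]
      exact Finset.prod_eq_zero (Finset.mem_range.2 hm) (by simp)
    rw [this, map_zero]
  rw [hQ, eval_prod] at h7
  obtain ⟨i, -, hi⟩ := Finset.prod_eq_zero_iff.1 h7
  exact ⟨i, by simpa [sub_eq_zero] using hi⟩

theorem exists_pow {k : Type} [CommRing k] [IsDomain k] {p : ℕ} [Fact p.Prime] [CharP k p]
    {y : k} (hy : IsIntegral ℤ y) : ∃ m : ℕ, 0 < m ∧ y ^ p ^ m = y := by
  let _ := ZMod.algebra k p
  have h1 : IsIntegral (ZMod p) y := hy.tower_top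
  have h2 : (Algebra.adjoin (ZMod p) {y}).toSubmodule.FG := h1.fg_adjoin_singleton
  have h3 : Module.Finite (ZMod p) (Algebra.adjoin (ZMod p) {y}) := ⟨(Submodule.fg_top _).2 h2⟩
  have h4 : Finite (Algebra.adjoin (ZMod p) {y}) := Module.finite_of_finite (ZMod p)
  let f : ℕ → Algebra.adjoin (ZMod p) {y} := fun i =>
    ⟨y ^ p ^ i, pow_mem (Algebra.subset_adjoin (Set.mem_singleton y)) _⟩
  obtain ⟨i, j, hij, h5⟩ := Finite.exists_ne_map_eq_of_infinite f
  have key : ∀ i j : ℕ, i < j → f i = f j → ∃ m : ℕ, 0 < m ∧ y ^ p ^ m = y := by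
    intro i j hij h5
    refine ⟨j - i, by omega, ?_⟩
    have h6 : y ^ p ^ i = y ^ p ^ j := congrArg Subtype.val h5
    have h7 : (y ^ p ^ (j - i)) ^ p ^ i = y ^ p ^ i := by
      rw [← pow_mul, ← pow_add, Nat.sub_add_cancel hij.le, h6]
    exact iterateFrobenius_inj k p i h7
  rcases lt_or_gt_of_ne hij with h | h
  · exact key i j h h5
  · exact key j i h h5.symm

theorem hom_comm {k : Type} [CommRing k] [IsDomain k] {p : ℕ} [Fact p.Prime] [CharP k p]
    (hk : ∀ y : k, IsIntegral ℤ y) (φ ψ : k →+* k) (y : k) : φ (ψ y) = ψ (φ y) := by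
  obtain ⟨m, hm, hy⟩ := exists_pow (p := p) (hk y)
  obtain ⟨i, hi⟩ := pow_of_hom φ hy hm
  obtain ⟨j, hj⟩ := pow_of_hom ψ hy hm
  rw [hi, hj, map_pow, map_pow, hi, hj, ← pow_mul, ← pow_mul, mul_comm]

/-! ### the commutators of the decomposition group are in the inertia group -/

/-- the action on the algebraic integers -/
noncomputable def act {F : Type} [Field F] (σ : Gal F) : Zb F ≃+* Zb F :=
  ((σ.restrictScalars ℤ).mapIntegralClosure).toRingEquiv

theorem act_coe {F : Type} [Field F] (σ : Gal F) (x : Zb F) :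
    ((act σ x : Zb F) : AlgebraicClosure F) = σ (x : AlgebraicClosure F) := rfl

theorem eq_act {F : Type} [Field F] {σ : Gal F} {x y : Zb F}
    (h : (y : AlgebraicClosure F) = σ (x : AlgebraicClosure F)) : y = act σ x :=
  Subtype.ext h

/-- the stabilizer of `𝔓` -/
def Stab {F : Type} [Field F] (𝔓 : Ideal (Zb F)) : Subgroup (Gal F) where
  carrier := {σ | ∀ x : Zb F, x ∈ 𝔓 ↔ act σ x ∈ 𝔓}
  one_mem' x := Iff.rfl
  mul_mem' {σ τ} h1 h2 x := (h2 x).trans (h1 _)
  inv_mem' {σ} h x := by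
    have h1 := h (act σ⁻¹ x)
    have h2 : act σ (act σ⁻¹ x) = x := by
      apply Subtype.ext
      rw [act_coe, act_coe]
      exact σ.apply_symm_apply _
    rw [h2] at h1
    exact h1.symm

theorem commutator_congr {F : Type} [Field F] [NumberField F] {v : Pl F} {𝔓 : Ideal (Zb F)}
    (hv : Over v 𝔓) {σ τ : Gal F} (hσ : σ ∈ Stab 𝔓) (hτ : τ ∈ Stab 𝔓) :
    Congr 𝔓 1 (σ * τ * σ⁻¹ * τ⁻¹) := by
  have hP : 𝔓.IsPrime := hv.1
  -- the characteristic
  have hq0 : (Ideal.absNorm v.asIdeal : ℕ) ≠ 0 := by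
    intro h
    exact v.ne_bot (Ideal.absNorm_eq_zero_iff.1 h)
  have hq : ((Ideal.absNorm v.asIdeal : ℕ) : Zb F) ∈ 𝔓 := by
    refine (hv.2 ((Ideal.absNorm v.asIdeal : ℕ) : 𝓞 F) _ ?_).1 (Ideal.absNorm_mem _)
    simp
  obtain ⟨p, hp⟩ := CharP.exists (Zb F ⧸ 𝔓)
  have hpp : p.Prime := by
    rcases CharP.char_is_prime_or_zero (Zb F ⧸ 𝔓) p with h | h
    · exact h
    · exfalso
      subst h
      have : CharZero (Zb F ⧸ 𝔓) := CharP.charP_to_charZero _
      have h1 : ((Ideal.absNorm v.asIdeal : ℕ) : Zb F ⧸ 𝔓) = 0 := by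
        rw [← map_natCast (Ideal.Quotient.mk 𝔓)]
        exact Ideal.Quotient.eq_zero_iff_mem.2 hq
      exact hq0 (Nat.cast_eq_zero.1 h1)
  have : Fact p.Prime := ⟨hpp⟩
  have hint : ∀ y : Zb F ⧸ 𝔓, IsIntegral ℤ y := by
    intro y
    obtain ⟨x, rfl⟩ := Ideal.Quotient.mk_surjective y
    have h1 : IsIntegral ℤ x := (integralClosure.isIntegral x)
    exact h1.map (Ideal.Quotient.mkₐ ℤ 𝔓)
  let f : ∀ σ : Gal F, σ ∈ Stab 𝔓 → (Zb F ⧸ 𝔓 →+* Zb F ⧸ 𝔓) := fun σ h =>
    Ideal.quotientMap 𝔓 (act σ).toRingHom (fun x hx => (h x).1 hx)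
  have hf : ∀ (σ : Gal F) (h : σ ∈ Stab 𝔓) (x : Zb F), f σ h (Ideal.Quotient.mk 𝔓 x) =
      Ideal.Quotient.mk 𝔓 (act σ x) := fun σ h x => rfl
  intro x y hxy
  have hy : y = act (σ * τ * σ⁻¹ * τ⁻¹) x := eq_act hxy
  set z : Zb F := act (σ⁻¹ * τ⁻¹) x with hz
  have h1 : y = act σ (act τ z) := by
    rw [hy]; apply Subtype.ext; simp only [act_coe, hz]; simp [mul_assoc]
  have h2 : x = act τ (act σ z) := by
    apply Subtype.ext; simp only [act_coe, hz]
    simp
  have h3 := hom_comm (p := p) hint (f σ hσ) (f τ hτ) (Ideal.Quotient.mk 𝔓 z)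
  rw [hf τ hτ, hf σ hσ, hf σ hσ, hf τ hτ, ← h1, ← h2] at h3
  rw [pow_one]
  exact (Ideal.Quotient.eq).1 h3

/-! ### two by two matrices -/

variable {K : Type} [Field K]

theorem entries {N : Matrix (Fin 2) (Fin 2) K} (h : N ^ 2 = 0) :
    N 1 1 = -N 0 0 ∧ N 0 0 * N 0 0 = -(N 0 1 * N 1 0) := by
  have h00 := congrFun (congrFun h 0) 0
  have h01 := congrFun (congrFun h 0) 1
  have h10 := congrFun (congrFun h 1) 0
  have h11 := congrFun (congrFun h 1) 1
  simp only [pow_two, Matrix.mul_apply, Fin.sum_univ_two, Matrix.zero_apply] at h00 h01 h10 h11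
  have h2 : N 0 0 * N 0 0 = -(N 0 1 * N 1 0) := by linear_combination h00
  refine ⟨?_, h2⟩
  by_cases hb : N 0 1 = 0
  · have ha : N 0 0 = 0 := by
      have : N 0 0 * N 0 0 = 0 := by rw [h2, hb]; ring
      exact mul_self_eq_zero.1 this
    have hd : N 1 1 = 0 := by
      have : N 1 1 * N 1 1 = 0 := by rw [hb] at h11; linear_combination h11
      exact mul_self_eq_zero.1 this
    rw [ha, hd, neg_zero]
  · have : N 0 1 * (N 0 0 + N 1 1) = 0 := by linear_combination h01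
    rcases mul_eq_zero.1 this with h | h
    · exact absurd h hb
    · linear_combination h

/-- two unipotent matrices with unipotent product -/
theorem nil_mul {A B : Matrix (Fin 2) (Fin 2) K} (hA : (A - 1) ^ 2 = 0) (hB : (B - 1) ^ 2 = 0)
    (hAB : (A * B - 1) ^ 2 = 0) : (B - 1) * (A - 1) = 0 := by
  set N := A - 1 with hN
  set M := B - 1 with hM
  have e1 : A * B - 1 = N + M + N * M := by
    rw [hN, hM]; noncomm_ring
  rw [e1] at hAB
  obtain ⟨n1, n2⟩ := entries hA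
  obtain ⟨m1, m2⟩ := entries hB
  obtain ⟨k1, -⟩ := entries hAB
  simp only [Matrix.add_apply, Matrix.mul_apply, Fin.sum_univ_two] at k1
  rw [n1, m1] at k1
  have k2 : 2 * (N 0 0 * M 0 0) = -(N 0 1 * M 1 0 + N 1 0 * M 0 1) := by linear_combination k1
  have s1 : (M 0 0 * N 0 1 - M 0 1 * N 0 0) = 0 := by
    apply mul_self_eq_zero.1
    linear_combination (N 0 1) ^ 2 * m2 - N 0 1 * M 0 1 * k2 + (M 0 1) ^ 2 * n2
  have s2 : (M 1 0 * N 0 0 - M 0 0 * N 1 0) = 0 := by
    apply mul_self_eq_zero.1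
    linear_combination (N 1 0) ^ 2 * m2 - N 1 0 * M 1 0 * k2 + (M 1 0) ^ 2 * n2
  have s3 : (M 0 0 * N 0 0 + M 0 1 * N 1 0) = 0 := by
    apply mul_self_eq_zero.1
    linear_combination (N 0 0) ^ 2 * m2 - M 0 1 * M 1 0 * n2 + M 0 1 * N 1 0 * k2
  have s4 : (M 1 0 * N 0 1 + M 0 0 * N 0 0) = 0 := by
    linear_combination k2 - s3
  ext i j
  fin_cases i <;> fin_cases j <;>
    simp only [Matrix.mul_apply, Fin.sum_univ_two, Matrix.zero_apply, Fin.zero_eta, Fin.mk_one,
      Fin.isValue, n1, m1]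
  · exact s3
  · linear_combination s1
  · linear_combination s2
  · linear_combination s4

/-- the kernel of a matrix which is not zero is at most a line -/
theorem line {N : Matrix (Fin 2) (Fin 2) K} (hN : N ≠ 0) {e w : Fin 2 → K} (he : e ≠ 0)
    (h1 : N.mulVec e = 0) (h2 : N.mulVec w = 0) : ∃ a : K, w = a • e := by
  have key : w 0 * e 1 = w 1 * e 0 := by
    have : ∃ i, N i 0 ≠ 0 ∨ N i 1 ≠ 0 := by
      by_contra hcon
      push Not at hcon
      apply hN
      ext i j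
      fin_cases j
      · exact (hcon i).1
      · exact (hcon i).2
    obtain ⟨i, hi⟩ := this
    have h3 := congrFun h1 i
    have h4 := congrFun h2 i
    simp only [Matrix.mulVec, dotProduct, Fin.sum_univ_two, Pi.zero_apply] at h3 h4
    rcases hi with hi | hi
    · apply mul_left_cancel₀ hi
      linear_combination e 1 * h4 - w 1 * h3
    · apply mul_left_cancel₀ hi
      linear_combination w 0 * h3 - e 0 * h4
  by_cases h0 : e 0 = 0
  · have h5 : e 1 ≠ 0 := by
      intro h6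
      apply he
      ext i
      fin_cases i
      · exact h0
      · exact h6
    refine ⟨w 1 / e 1, ?_⟩
    ext i
    fin_cases i
    · have : w 0 = 0 := by
        rw [h0, mul_zero] at key
        exact (mul_eq_zero.1 key).resolve_right h5
      simp [this, h0]
    · simp [div_mul_cancel₀ _ h5]
  · refine ⟨w 0 / e 0, ?_⟩
    ext i
    fin_cases i
    · simp [div_mul_cancel₀ _ h0]
    · simp only [Fin.mk_one, Fin.isValue, Pi.smul_apply, smul_eq_mul]
      field_simp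
      linear_combination -key

end LOCaux

open LOCaux in
theorem st_LOC : ST_LOC := by
  intro F _ _ N _ C hC K _ _ _ r v 𝔓 hv hr
  set M : Gal F → Matrix (Fin 2) (Fin 2) K := fun σ =>
    ((r σ : Matrix.GeneralLinearGroup (Fin 2) K) : Matrix (Fin 2) (Fin 2) K) with hM
  have hMmul : ∀ σ τ, M (σ * τ) = M σ * M τ := fun σ τ => by
    simp only [hM, map_mul]; rfl
  have hMone : M 1 = 1 := by simp only [hM, map_one]; rfl
  -- the group D_C
  set D : Subgroup (Gal F) := Stab 𝔓 ⊓ C.comap (QuotientGroup.mk' N) with hD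
  have hmem : ∀ σ : Gal F, (QuotientGroup.mk σ : Gal F ⧸ N) ∈ C →
        (∀ x y : Zb F, (y : AlgebraicClosure F) = σ (x : AlgebraicClosure F) →
          (x ∈ 𝔓 ↔ y ∈ 𝔓)) → σ ∈ D := by
    intro σ h1 h2
    exact ⟨fun x => h2 x _ rfl, h1⟩
  suffices h : ∃ e : Fin 2 → K, e ≠ 0 ∧ ∀ σ ∈ D, ∃ a : K, (M σ).mulVec e = a • e by
    obtain ⟨e, he, h1⟩ := h
    exact ⟨e, he, fun σ h2 h3 => h1 σ (hmem σ h2 h3)⟩
  -- inertia subgroup of N
  have hJ : ∀ σ ∈ D, ∀ τ ∈ D, σ * τ * σ⁻¹ * τ⁻¹ ∈ N ∧ Congr 𝔓 1 (σ * τ * σ⁻¹ * τ⁻¹) := by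
    intro σ hσ τ hτ
    refine ⟨?_, commutator_congr hv hσ.1 hτ.1⟩
    have h1 : (QuotientGroup.mk σ : Gal F ⧸ N) ∈ C := hσ.2
    have h2 : (QuotientGroup.mk τ : Gal F ⧸ N) ∈ C := hτ.2
    rw [← QuotientGroup.eq_one_iff]
    have h3 : (⟨_, h1⟩ : C) * ⟨_, h2⟩ = ⟨_, h2⟩ * ⟨_, h1⟩ := by
      let _ := hC.commGroup
      exact mul_comm (⟨_, h1⟩ : C) ⟨_, h2⟩
    have h4 : (QuotientGroup.mk σ : Gal F ⧸ N) * QuotientGroup.mk τ =
        QuotientGroup.mk τ * QuotientGroup.mk σ := congrArg Subtype.val h3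
    have h5 : (QuotientGroup.mk (σ * τ * σ⁻¹ * τ⁻¹) : Gal F ⧸ N) =
        QuotientGroup.mk σ * QuotientGroup.mk τ * (QuotientGroup.mk σ)⁻¹ *
          (QuotientGroup.mk τ)⁻¹ := rfl
    rw [h5, h4]
    group
  by_cases hcase : ∀ σ ∈ N, Congr 𝔓 1 σ → M σ = 1
  · -- r(D) is commutative
    have hcomm : ∀ σ ∈ D, ∀ τ ∈ D, M σ * M τ = M τ * M σ := by
      intro σ hσ τ hτ
      have h1 := hcase _ (hJ σ hσ τ hτ).1 (hJ σ hσ τ hτ).2
      have h2 : σ * τ = (σ * τ * σ⁻¹ * τ⁻¹) * (τ * σ) := by group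
      rw [← hMmul, h2, hMmul, h1, one_mul, hMmul]
    by_cases hsc : ∀ σ ∈ D, ∃ a : K, M σ = a • (1 : Matrix (Fin 2) (Fin 2) K)
    · refine ⟨fun _ => 1, fun h => one_ne_zero (congrFun h 0), fun σ hσ => ?_⟩
      obtain ⟨a, ha⟩ := hsc σ hσ
      exact ⟨a, by rw [ha, Matrix.smul_mulVec, Matrix.one_mulVec]⟩
    · push Not at hsc
      obtain ⟨σ₀, hσ₀, hns⟩ := hsc
      obtain ⟨μ, hμ⟩ := Module.End.exists_eigenvalue (Matrix.toLin' (M σ₀))
      obtain ⟨e, he⟩ := hμ.exists_hasEigenvector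
      have he1 : (M σ₀).mulVec e = μ • e := by
        have := he.apply_eq_smul
        rwa [Matrix.toLin'_apply] at this
      have hN0 : M σ₀ - μ • (1 : Matrix (Fin 2) (Fin 2) K) ≠ 0 := fun h =>
        hns μ (sub_eq_zero.1 h)
      refine ⟨e, he.2, fun σ hσ => ?_⟩
      refine line hN0 he.2 ?_ ?_
      · rw [Matrix.sub_mulVec, Matrix.smul_mulVec, Matrix.one_mulVec, he1, sub_self]
      · rw [Matrix.sub_mulVec, Matrix.smul_mulVec, Matrix.one_mulVec, Matrix.mulVec_mulVec,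
          hcomm σ₀ hσ₀ σ hσ, ← Matrix.mulVec_mulVec, he1, Matrix.mulVec_smul, sub_self]
  · push Not at hcase
    obtain ⟨σ₀, hσ₀N, hσ₀I, hne⟩ := hcase
    have hN0 : M σ₀ - 1 ≠ 0 := fun h => hne (sub_eq_zero.1 h)
    -- a column
    have hcol : ∃ w : Fin 2 → K, (M σ₀ - 1).mulVec w ≠ 0 := by
      by_contra hcon
      push Not at hcon
      apply hN0
      ext i j
      have := congrFun (hcon (Pi.single j 1)) i
      rw [Matrix.mulVec_single_one] at this
      exact this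
    obtain ⟨w, hw⟩ := hcol
    set e := (M σ₀ - 1).mulVec w with he
    -- inertia is a group
    have hImul : ∀ σ τ : Gal F, Congr 𝔓 1 σ → Congr 𝔓 1 τ → Congr 𝔓 1 (σ * τ) := by
      intro σ τ h1 h2 x y hxy
      have h3 := h1 (act τ x) y hxy
      have h4 := h2 x (act τ x) rfl
      have := 𝔓.add_mem h3 h4
      simpa using this
    have hfix : ∀ τ ∈ N, Congr 𝔓 1 τ → (M τ).mulVec e = e := by
      intro τ hτN hτI
      have h1 := nil_mul (hr σ₀ hσ₀N hσ₀I) (hr τ hτN hτI) (by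
        have := hr (σ₀ * τ) (N.mul_mem hσ₀N hτN) (hImul _ _ hσ₀I hτI)
        have h2 := hMmul σ₀ τ
        simp only [hM] at h2
        rwa [h2] at this)
      have h3 : ((M τ - 1) * (M σ₀ - 1)).mulVec w = 0 := by
        simp only [hM]
        rw [h1, Matrix.zero_mulVec]
      rw [← Matrix.mulVec_mulVec, ← he, Matrix.sub_mulVec, Matrix.one_mulVec, sub_eq_zero] at h3
      exact h3
    refine ⟨e, hw, fun σ hσ => ?_⟩
    refine line hN0 hw ?_ ?_
    · rw [Matrix.sub_mulVec, Matrix.one_mulVec, hfix σ₀ hσ₀N hσ₀I, sub_self]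
    · -- σ₀ σ e = σ (σ⁻¹ σ₀ σ) e
      have h1 : σ⁻¹ * σ₀ * σ ∈ N := by
        have := ‹N.Normal›.conj_mem σ₀ hσ₀N σ⁻¹
        simpa using this
      have h2 : Congr 𝔓 1 (σ⁻¹ * σ₀ * σ) := by
        intro x y hxy
        have h3 := hσ₀I (act σ x) (act σ₀ (act σ x)) rfl
        rw [pow_one] at h3 ⊢
        have h4 : y - x = act σ⁻¹ (act σ₀ (act σ x) - act σ x) := by
          rw [map_sub]
          congr 1
          · exact Subtype.ext hxy
          · apply Subtype.ext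
            rw [act_coe, act_coe]
            exact (σ.symm_apply_apply _).symm
        rw [h4]
        exact ((Subgroup.inv_mem _ hσ.1) _).1 h3
      have h5 := hfix _ h1 h2
      have h6 : σ₀ * σ = σ * (σ⁻¹ * σ₀ * σ) := by group
      rw [Matrix.sub_mulVec, Matrix.one_mulVec, Matrix.mulVec_mulVec, ← hMmul, h6, hMmul,
        ← Matrix.mulVec_mulVec, h5, sub_self]

end BKA
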